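import Pool.Agent.helper19.MX.SpecD

/-!
# Row mx:AFU (MP_a875de_ag)
-/

set_option linter.unusedVariables false

namespace MX

open Pool.Agent.helper53.AU AN
open scoped Classical Topology

noncomputable section

variable {k F : Type} [Field k] [Field F] [Algebra k F]

lemma AFU_reg (P : Place k F) {x : F} {x₀ : k} (h : P.Ge 1 (x - algebraMap k F x₀)) : P.Ge 0 x := by
  have h1 : x = (x - algebraMap k F x₀) + algebraMap k F x₀ := by ring
  rw [h1]
  exact (h.mono (by norm_num)).add (P.ge_const x₀)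

lemma AFU_poly_reg (P : Place k F) {x : F} (h : P.Ge 0 x) (p : Polynomial k) :
    P.Ge 0 (Polynomial.aeval x p) := by
  rw [Polynomial.aeval_eq_sum_range]
  refine Place.Ge.sum _ _ fun i _ => ?_
  have h1 := (Place.Ge.pow h i).smul (p.coeff i)
  simpa using h1

/-- a polynomial vanishing at `x₀` -/
lemma AFU_van (P : Place k F) {x : F} {x₀ : k} (h : P.Ge 1 (x - algebraMap k F x₀))
    (p : Polynomial k) (hp : p.eval x₀ = 0) : P.Ge 1 (Polynomial.aeval x p) := by
  obtain ⟨q, hq⟩ := Polynomial.dvd_iff_isRoot.2 hp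
  rw [hq, map_mul, map_sub, Polynomial.aeval_X, Polynomial.aeval_C]
  have h1 := h.mul (AFU_poly_reg P (AFU_reg P h) q)
  simpa using h1

/-- the order of a polynomial in `x` -/
lemma AFU_ord (P : Place k F) {x : F} {x₀ : k} (hx : x - algebraMap k F x₀ ≠ 0)
    (h : P.Ge 1 (x - algebraMap k F x₀)) (p : Polynomial k) (hp : p ≠ 0) :
    P.ord (Polynomial.aeval x p) = P.ord (x - algebraMap k F x₀) * (p.rootMultiplicity x₀ : ℤ) := by
  obtain ⟨q, hq, hq0⟩ := Polynomial.exists_eq_pow_rootMultiplicity_mul_and_not_dvd p hp x₀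
  have hqe : q.eval x₀ ≠ 0 := fun h0 => hq0 (Polynomial.dvd_iff_isRoot.2 h0)
  have h1 : P.Ge 1 (Polynomial.aeval x (q - Polynomial.C (q.eval x₀))) :=
    AFU_van P h _ (by simp)
  have hc : algebraMap k F (q.eval x₀) ≠ 0 := by
    rw [Ne, map_eq_zero]; exact hqe
  have h2 := Place.ord_add_eq (P := P) (f := algebraMap k F (q.eval x₀)) (g :=
    Polynomial.aeval x (q - Polynomial.C (q.eval x₀))) hc (by rw [P.ord_const _ hqe]; exact h1)
  have h3 : algebraMap k F (q.eval x₀) + Polynomial.aeval x (q - Polynomial.C (q.eval x₀)) =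
      Polynomial.aeval x q := by
    rw [map_sub, Polynomial.aeval_C]; ring
  rw [h3, P.ord_const _ hqe] at h2
  have h4 : Polynomial.aeval x p =
      (x - algebraMap k F x₀) ^ (p.rootMultiplicity x₀) * Polynomial.aeval x q := by
    conv_lhs => rw [hq]
    rw [map_mul, map_pow, map_sub, Polynomial.aeval_X, Polynomial.aeval_C]
  rw [h4, P.ord_mul _ _ (pow_ne_zero _ hx) h2.1, P.ord_pow hx, h2.2]
  ring

/-- a constant of order `≥ 1` is zero -/
lemma AFU_const (P : Place k F) (c : k) (h : P.Ge 1 (algebraMap k F c)) : c = 0 := by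
  by_contra hc
  have h1 := h.le (by rw [Ne, map_eq_zero]; exact hc)
  rw [P.ord_const c hc] at h1
  norm_num at h1

/-- the value of `y ^ 2 + y` -/
lemma AFU_val (P : Place k F) {x y : F} {x₀ y₀ : k} (f : Polynomial k)
    (hx : P.Ge 1 (x - algebraMap k F x₀)) (hy : P.Ge 1 (y - algebraMap k F y₀))
    (hf : y ^ 2 + y = Polynomial.aeval x f) : y₀ ^ 2 + y₀ = f.eval x₀ := by
  have h1 : P.Ge 1 (Polynomial.aeval x (f - Polynomial.C (f.eval x₀))) :=
    AFU_van P hx _ (by simp)
  have h2 : P.Ge 1 ((y - algebraMap k F y₀) * (y + algebraMap k F y₀ + 1)) := by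
    have h3 := hy.mul (((AFU_reg P hy).add (P.ge_const y₀)).add
      (Or.inr (le_of_eq P.ord_one.symm) : P.Ge 0 1))
    simpa using h3
  have h4 := h2.sub h1
  have h5 : (y - algebraMap k F y₀) * (y + algebraMap k F y₀ + 1) -
      Polynomial.aeval x (f - Polynomial.C (f.eval x₀)) =
      algebraMap k F (f.eval x₀ - (y₀ ^ 2 + y₀)) := by
    rw [map_sub (Polynomial.aeval (R := k) x), ← hf, Polynomial.aeval_C, map_sub, map_add, map_pow]
    ring
  rw [h5] at h4
  have h6 := AFU_const P _ h4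
  exact (sub_eq_zero.1 h6).symm

/-- truncated solutions -/
def AFU_g (f : Polynomial k) (x₀ y₀ : k) (N : ℕ) : Polynomial k :=
  Polynomial.C y₀ + ∑ i ∈ Finset.range N, (f - Polynomial.C (f.eval x₀)) ^ (2 ^ i)

lemma AFU_g_eval (f : Polynomial k) (x₀ y₀ : k) (N : ℕ) : (AFU_g f x₀ y₀ N).eval x₀ = y₀ := by
  rw [AFU_g, Polynomial.eval_add, Polynomial.eval_C, Polynomial.eval_finsetSum]
  have h1 : ∑ i ∈ Finset.range N, ((f - Polynomial.C (f.eval x₀)) ^ (2 ^ i)).eval x₀ = 0 := by
    refine Finset.sum_eq_zero fun i _ => ?_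
    rw [Polynomial.eval_pow, Polynomial.eval_sub, Polynomial.eval_C, sub_self]
    exact zero_pow (pow_ne_zero _ two_ne_zero)
  rw [h1, add_zero]

lemma AFU_g_eq [CharP k 2] (f : Polynomial k) (x₀ y₀ : k) (h : y₀ ^ 2 + y₀ = f.eval x₀) (N : ℕ) :
    (AFU_g f x₀ y₀ N) ^ 2 + AFU_g f x₀ y₀ N =
      f + (f - Polynomial.C (f.eval x₀)) ^ (2 ^ N) := by
  have h2 : (2 : Polynomial k) = 0 := CharTwo.two_eq_zero
  induction N with
  | zero =>
    rw [AFU_g, Finset.sum_range_zero, add_zero, pow_zero, pow_one, ← h, map_add, map_pow]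
    linear_combination (Polynomial.C y₀ ^ 2 + Polynomial.C y₀ - f) * h2
  | succ N ih =>
    have h3 : AFU_g f x₀ y₀ (N + 1) = AFU_g f x₀ y₀ N +
        (f - Polynomial.C (f.eval x₀)) ^ (2 ^ N) := by
      rw [AFU_g, AFU_g, Finset.sum_range_succ, add_assoc]
    rw [h3, pow_succ 2 N, pow_mul]
    linear_combination ih + (AFU_g f x₀ y₀ N * (f - Polynomial.C (f.eval x₀)) ^ (2 ^ N) +
      (f - Polynomial.C (f.eval x₀)) ^ (2 ^ N)) * h2

/-- approximation of `y` by a polynomial in `x` -/
lemma AFU_approx [CharP k 2] (P : Place k F) {x y : F} {x₀ y₀ : k} (f : Polynomial k)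
    (hx : P.Ge 1 (x - algebraMap k F x₀)) (hy : P.Ge 1 (y - algebraMap k F y₀))
    (hf : y ^ 2 + y = Polynomial.aeval x f) (N : ℕ) :
    P.Ge N (y - Polynomial.aeval x (AFU_g f x₀ y₀ N)) := by
  haveI : CharP F 2 := charP_of_injective_algebraMap (algebraMap k F).injective 2
  have h2 : (2 : F) = 0 := CharTwo.two_eq_zero
  have hval := AFU_val P f hx hy hf
  set w := y - Polynomial.aeval x (AFU_g f x₀ y₀ N) with hw
  have hw1 : P.Ge 1 w := by
    have h3 : P.Ge 1 (Polynomial.aeval x (AFU_g f x₀ y₀ N - Polynomial.C y₀)) :=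
      AFU_van P hx _ (by rw [Polynomial.eval_sub, AFU_g_eval, Polynomial.eval_C, sub_self])
    have h4 := hy.sub h3
    have h5 : y - algebraMap k F y₀ -
        Polynomial.aeval x (AFU_g f x₀ y₀ N - Polynomial.C y₀) = w := by
      rw [map_sub, Polynomial.aeval_C, hw]; ring
    rw [h5] at h4
    exact h4
  have h6 : P.Ge 1 (Polynomial.aeval x (f - Polynomial.C (f.eval x₀))) :=
    AFU_van P hx _ (by simp)
  have h7 : w * (1 + w) = -(Polynomial.aeval x (f - Polynomial.C (f.eval x₀))) ^ (2 ^ N) := by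
    have h8 := congrArg (Polynomial.aeval x) (AFU_g_eq f x₀ y₀ hval N)
    rw [map_add, map_pow, map_add, map_pow] at h8
    rw [hw]
    linear_combination hf - h8 + (Polynomial.aeval x (AFU_g f x₀ y₀ N) ^ 2 -
      y * Polynomial.aeval x (AFU_g f x₀ y₀ N)) * h2
  have h9 := Place.ord_add_eq (P := P) (f := (1 : F)) (g := w) one_ne_zero
    (by rw [P.ord_one]; exact hw1)
  rw [P.ord_one] at h9
  have h10 : P.Ge N (w * (1 + w)) := by
    rw [h7]
    refine (Place.Ge.mono (Place.Ge.pow h6 (2 ^ N)) ?_).neg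
    have h11 : N < 2 ^ N := Nat.lt_two_pow_self
    have h12 : (N : ℤ) ≤ ((2 ^ N : ℕ) : ℤ) := by exact_mod_cast h11.le
    linarith
  by_cases hw0 : w = 0
  · rw [hw0]; exact P.ge_zero _
  · right
    have h13 := h10.le (mul_ne_zero hw0 h9.1)
    rw [P.ord_mul _ _ hw0 h9.1, h9.2, add_zero] at h13
    exact h13

theorem AFU : AFU_stmt := by
  intro k F _ _ _ _ x r y f hAS x₀ y₀ P P' hPx hPy hPx' hPy'
  have hx0 : x - algebraMap k F x₀ ≠ 0 := by
    intro h0
    apply hAS.tr
    rw [sub_eq_zero.1 h0]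
    exact isAlgebraic_algebraMap x₀
  set e := P.ord (x - algebraMap k F x₀) with he
  set e' := P'.ord (x - algebraMap k F x₀) with he'
  have hepos : 1 ≤ e := hPx.le hx0
  have hepos' : 1 ≤ e' := hPx'.le hx0
  have hxr : P.Ge 0 x := AFU_reg P hPx
  have hxr' : P'.Ge 0 x := AFU_reg P' hPx'
  -- approximation
  have happ : ∀ G ∈ Algebra.adjoin k ({x} ∪ y '' {j | j < r}), ∀ N : ℕ, ∃ p : Polynomial k,
      P.Ge N (G - Polynomial.aeval x p) ∧ P'.Ge N (G - Polynomial.aeval x p) := by
    intro G hG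
    induction hG using Algebra.adjoin_induction with
    | mem G hG =>
      intro N
      rcases hG with hG | hG
      · rw [Set.mem_singleton_iff] at hG
        refine ⟨Polynomial.X, ?_⟩
        rw [hG, Polynomial.aeval_X, sub_self]
        exact ⟨P.ge_zero _, P'.ge_zero _⟩
      · obtain ⟨j, hj, rfl⟩ := hG
        exact ⟨AFU_g (f j) x₀ (y₀ j) N, AFU_approx P (f j) hPx (hPy j hj) (hAS.eq j hj) N,
          AFU_approx P' (f j) hPx' (hPy' j hj) (hAS.eq j hj) N⟩
    | algebraMap c =>
      intro N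
      refine ⟨Polynomial.C c, ?_⟩
      rw [Polynomial.aeval_C, sub_self]
      exact ⟨P.ge_zero _, P'.ge_zero _⟩
    | add a b _ _ ha hb =>
      intro N
      obtain ⟨p, hp, hp'⟩ := ha N
      obtain ⟨q, hq, hq'⟩ := hb N
      refine ⟨p + q, ?_⟩
      have h1 : a + b - Polynomial.aeval x (p + q) =
          (a - Polynomial.aeval x p) + (b - Polynomial.aeval x q) := by
        rw [map_add]; ring
      rw [h1]
      exact ⟨hp.add hq, hp'.add hq'⟩
    | mul a b _ _ ha hb =>
      intro N
      obtain ⟨p, hp, hp'⟩ := ha N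
      obtain ⟨q, hq, hq'⟩ := hb N
      refine ⟨p * q, ?_⟩
      have h1 : a * b - Polynomial.aeval x (p * q) =
          (a - Polynomial.aeval x p) * (b - Polynomial.aeval x q) +
          (a - Polynomial.aeval x p) * Polynomial.aeval x q +
          Polynomial.aeval x p * (b - Polynomial.aeval x q) := by
        rw [map_mul]; ring
      rw [h1]
      have key : ∀ Q : Place k F, Q.Ge 0 x → Q.Ge N (a - Polynomial.aeval x p) →
          Q.Ge N (b - Polynomial.aeval x q) →
          Q.Ge N ((a - Polynomial.aeval x p) * (b - Polynomial.aeval x q) +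
          (a - Polynomial.aeval x p) * Polynomial.aeval x q +
          Polynomial.aeval x p * (b - Polynomial.aeval x q)) := by
        intro Q hQx hQp hQq
        have h2 := hQp.mul (hQq.mono (by positivity : (0 : ℤ) ≤ (N : ℤ)))
        have h3 := hQp.mul (AFU_poly_reg Q hQx q)
        have h4 := (AFU_poly_reg Q hQx p).mul hQq
        rw [add_zero] at h2 h3
        rw [zero_add] at h4
        exact (h2.add h3).add h4
      exact ⟨key P hxr hp hq, key P' hxr' hp' hq'⟩
  -- comparison on the subalgebra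
  have hcmp : ∀ G ∈ Algebra.adjoin k ({x} ∪ y '' {j | j < r}), G ≠ 0 →
      e' * P.ord G = e * P'.ord G := by
    intro G hG hG0
    obtain ⟨p, hp, hp'⟩ := happ G hG (max (P.ord G).toNat (P'.ord G).toNat + 1)
    have key : ∀ Q : Place k F, Q.ord G ≤ (max (P.ord G).toNat (P'.ord G).toNat : ℕ) →
        Q.Ge ((max (P.ord G).toNat (P'.ord G).toNat + 1 : ℕ) : ℤ) (G - Polynomial.aeval x p) →
        Polynomial.aeval x p ≠ 0 ∧ Q.ord (Polynomial.aeval x p) = Q.ord G := by
      intro Q hQ hQp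
      have h1 := Place.ord_add_eq (P := Q) (f := G) (g := -(G - Polynomial.aeval x p)) hG0
        ((hQp.mono (by push_cast at hQ ⊢; linarith)).neg)
      have h2 : G + -(G - Polynomial.aeval x p) = Polynomial.aeval x p := by ring
      rw [h2] at h1
      exact h1
    have h1 := key P (by
      have := Int.self_le_toNat (P.ord G)
      push_cast
      exact le_max_of_le_left this) hp
    have h2 := key P' (by
      have := Int.self_le_toNat (P'.ord G)
      push_cast
      exact le_max_of_le_right this) hp'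
    have hp0 : p ≠ 0 := by
      rintro rfl
      exact h1.1 (map_zero _)
    rw [← h1.2, ← h2.2, AFU_ord P hx0 hPx p hp0, AFU_ord P' hx0 hPx' p hp0]
    ring
  -- comparison on `F`
  have hall : ∀ z : F, z ≠ 0 → e' * P.ord z = e * P'.ord z := by
    intro z hz
    have hzt : z ∈ IntermediateField.adjoin k ({x} ∪ y '' {j | j < r}) := by
      rw [hAS.gen]; trivial
    rw [IntermediateField.mem_adjoin_iff_div] at hzt
    obtain ⟨a, ha, b, hb, hab⟩ := hzt
    have ha0 : a ≠ 0 := by
      rintro rfl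
      rw [zero_div] at hab
      exact hz hab
    have hb0 : b ≠ 0 := by
      rintro rfl
      rw [div_zero] at hab
      exact hz hab
    rw [hab, P.ord_div ha0 hb0, P'.ord_div ha0 hb0]
    have h1 := hcmp a ha ha0
    have h2 := hcmp b hb hb0
    linear_combination h1 - h2
  have hdiv : e ∣ e' := by
    obtain ⟨t, ht, ht1⟩ := P.exists_uniformizer
    have h1 := hall t ht
    rw [ht1, mul_one] at h1
    exact ⟨_, h1⟩
  have hdiv' : e' ∣ e := by
    obtain ⟨t, ht, ht1⟩ := P'.exists_uniformizer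
    have h1 := hall t ht
    rw [ht1, mul_one] at h1
    exact ⟨_, h1.symm⟩
  have hee : e = e' := Int.dvd_antisymm (by linarith) (by linarith) hdiv hdiv'
  refine Place.ext ?_
  funext z
  by_cases hz : z = 0
  · rw [hz, P.ord_zero, P'.ord_zero]
  · have h1 := hall z hz
    rw [← hee] at h1
    exact mul_left_cancel₀ (by linarith : e ≠ 0) h1

end

end MX
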