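import Pool.Agent.helper19.MX.SpecC

/-!
# Row mx:LA1 (MP_a875de_ag)
-/

namespace MX

open Pool.Agent.helper53.AU AN
open scoped Classical Topology

noncomputable section

/-- the automorphism of the Laurent series given by an automorphism of the coefficients -/
def LA1_eq (e : kk ≃+* kk) : LS kk ≃+* LS kk :=
  RingEquiv.ofRingHom (mp e.toRingHom) (mp e.symm.toRingHom)
    (by
      ext f n
      show e (e.symm (cf f n)) = cf f n
      exact e.apply_symm_apply _)
    (by
      ext f n
      show e.symm (e (cf f n)) = cf f n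
      exact e.symm_apply_apply _)

lemma LA1_cf (e : kk ≃+* kk) (f : LS kk) (n : ℤ) : cf (LA1_eq e f) n = e (cf f n) := rfl

theorem LA1 : LA1_stmt := by
  intro n
  refine ⟨LA1_eq (iterateFrobeniusEquiv kk 2 (2 * n)).symm, fun c => ?_, fun z => ?_⟩
  · refine ⟨(iterateFrobeniusEquiv kk 2 (2 * n)).symm c, ?_, ?_⟩
    · ext m
      rw [LA1_cf, cf_C, cf_C]
      split_ifs
      · rfl
      · exact map_zero _
    · have h1 := (iterateFrobeniusEquiv kk 2 (2 * n)).apply_symm_apply c
      rw [iterateFrobeniusEquiv_def, pow_mul] at h1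
      exact h1
  · ext m
    rw [LA1_cf]
    show (iterateFrobeniusEquiv kk 2 (2 * n)).symm (algebraMap (ZMod 2) kk (cf z m)) =
      algebraMap (ZMod 2) kk (cf z m)
    rw [RingEquiv.symm_apply_eq, iterateFrobeniusEquiv_def, ← map_pow]
    congr 1
    have h2 : ∀ a : ZMod 2, ∀ j : ℕ, a ^ (2 ^ j) = a := by
      intro a j
      induction j with
      | zero => rw [pow_zero, pow_one]
      | succ j ih =>
        rw [pow_succ, pow_mul, ih]
        exact (by decide : ∀ a : ZMod 2, a ^ 2 = a) a
    exact (h2 _ _).symm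

end

end MX
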